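import Mathlib
import Pool.Agent.V11167.TpdDefs
import Pool.Agent.V11167.TpdA
import Pool.Agent.V11167.TpdD

namespace Pool.Agent.Results.MP_a7b5fd_co.LinearLower

open Pool.Agent.V11167.Tpd

/-- Linear lower bound for the threshold Prague dimension of bounded-degree graphs.
(1) `T n D ≥ D + 1` whenever `n ≥ 2 D + 2`.
(2) More generally, `T n D ≥ 2 a b / (a + b)` with `a = D + 1`, for every `1 ≤ b ≤ D + 1` with
`a + b ≤ n`.
(3) If a finite graph has two disjoint cliques with `r` vertices each and no edge between them,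
then its threshold Prague dimension is at least `r`.
(4) The infimum defining the threshold Prague dimension is attained. -/
theorem result :
    (∀ n D : ℕ, 2 * D + 2 ≤ n → D + 1 ≤ T n D) ∧
    (∀ n D b : ℕ, 0 < b → b ≤ D + 1 → D + 1 + b ≤ n →
      2 * (D + 1) * b ≤ (D + 1 + b) * T n D) ∧
    (∀ (n r : ℕ) (G : SimpleGraph (Fin n)) (p q : Fin r → Fin n),
      (∀ x y, x ≠ y → G.Adj (p x) (p y)) → (∀ x y, x ≠ y → G.Adj (q x) (q y)) →
      (∀ x y, p x ≠ q y ∧ ¬ G.Adj (p x) (q y)) → r ≤ tpd G) ∧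
    (∀ (n : ℕ) (G : SimpleGraph (Fin n)), Rep G (tpd G)) := by
  refine ⟨fun n D h => T_lower' h, fun n D b h1 h2 h3 => T_lower h1 h2 h3, ?_,
    fun n G => rep_tpd G⟩
  intro n r G p q hp hq hpq
  rcases Nat.eq_zero_or_pos r with hr | hr
  · omega
  · have h := two_cliques G hr hr p q hp hq hpq (rep_tpd G)
    have h2 : (2 * r) * r ≤ (2 * r) * tpd G := by
      calc (2 * r) * r ≤ (r + r) * tpd G := h
        _ = (2 * r) * tpd G := by ring
    exact Nat.le_of_mul_le_mul_left h2 (by omega)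

end Pool.Agent.Results.MP_a7b5fd_co.LinearLower
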